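import Pool.Agent.Helper51.RP.Goals1
import Mathlib.NumberTheory.RamificationInertia.Valuation

/-!
# RP-TAM: the tame condition
-/

namespace Pool.Agent.Helper20.RP

open NumberField Module IsDedekindDomain Pool.Agent.Helper51.RP

theorem prod_pow_prim {M : Type} [Field M] (p : ℕ) [hp : Fact p.Prime] {ε : M}
    (hε : IsPrimitiveRoot ε p) : ∏ j ∈ Finset.range p, ε ^ j = (-1) ^ (p - 1) := by
  rcases hp.out.eq_two_or_odd' with h2 | hodd
  · subst h2
    have : ε = -1 := hε.eq_neg_one_of_two_right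
    simp [Finset.prod_range_succ, this]
  · obtain ⟨m, hm⟩ := hodd
    rw [Finset.prod_pow_eq_pow_sum]
    have h1 : (∑ i ∈ Finset.range p, i) * 2 = p * (p - 1) := Finset.sum_range_id_mul_two p
    have h2 : p - 1 = 2 * m := by omega
    have h3 : ∑ i ∈ Finset.range p, i = p * m := by
      rw [h2] at h1
      nlinarith
    rw [h3, pow_mul, hε.pow_eq_one, one_pow, h2, pow_mul, neg_one_sq, one_pow]

theorem prod_sub_one {R Γ : Type*} [CommRing R] [LinearOrderedCommGroupWithZero Γ]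
    (W : Valuation R Γ) (f : ℕ → R) (n : ℕ) (hf : ∀ j, W (f j - 1) < 1) :
    W (∏ j ∈ Finset.range n, f j - 1) < 1 := by
  induction n with
  | zero => simp
  | succ n ih =>
    rw [Finset.prod_range_succ]
    have h1 : (∏ j ∈ Finset.range n, f j) * f n - 1 =
        (∏ j ∈ Finset.range n, f j - 1) * (f n - 1) + (∏ j ∈ Finset.range n, f j - 1) +
          (f n - 1) := by ring
    rw [h1]
    refine W.map_add_lt (W.map_add_lt ?_ ih) (hf n)
    rw [map_mul]
    exact mul_lt_one_of_lt_of_le ih (hf n).le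

theorem s_tam : S_TAM := by
  intro p hp M H _ _ _ _ _ ε a s γ hε ha hfr hs hγ y x hx v hv
  have hp0 : 0 < p := hp.out.pos
  have hs0 : s ≠ 0 := by
    rintro rfl
    rw [zero_pow hp0.ne'] at hs
    exact ha ((map_eq_zero (algebraMap M H)).1 hs.symm)
  have hinj : Function.Injective (algebraMap M H) := (algebraMap M H).injective
  -- the action of the powers of `γ`
  have hγj : ∀ j i : ℕ, (γ ^ j) (s ^ i) = algebraMap M H (ε ^ (j * i)) * s ^ i := by
    intro j
    induction j with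
    | zero => intro i; simp
    | succ j ih =>
      intro i
      have e1 : γ (s ^ i) = algebraMap M H (ε ^ i) * s ^ i := by
        rw [map_pow, hγ, mul_pow, map_pow]
      rw [pow_succ', AlgEquiv.mul_apply, ih, map_mul, AlgEquiv.commutes, e1, ← mul_assoc,
        ← map_mul, ← pow_add]
      congr 3
      ring
  -- the basis
  have hli : LinearIndependent M (fun i : Fin p => s ^ (i : ℕ)) := by
    refine Module.End.eigenvectors_linearIndependent' (γ.toLinearMap : Module.End M H)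
      (fun i : Fin p => ε ^ (i : ℕ)) ?_ _ ?_
    · intro i j hij
      exact Fin.ext (hε.pow_inj i.2 j.2 hij)
    · intro i
      rw [Module.End.hasEigenvector_iff, Module.End.mem_eigenspace_iff]
      refine ⟨?_, pow_ne_zero _ hs0⟩
      have := hγj 1 i
      rw [pow_one, one_mul] at this
      rw [Algebra.smul_def]
      exact this
  haveI : Nonempty (Fin p) := ⟨⟨0, hp0⟩⟩
  let b := basisOfLinearIndependentOfCardEqFinrank hli (by rw [Fintype.card_fin, hfr])
  have hb : ∀ i, b i = s ^ (i : ℕ) := fun i => by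
    rw [coe_basisOfLinearIndependentOfCardEqFinrank]
  obtain ⟨α, hy⟩ : ∃ α : Fin p → M, (y : H) = ∑ i, algebraMap M H (α i) * s ^ (i : ℕ) := by
    refine ⟨fun i => b.repr (y : H) i, ?_⟩
    have h := b.sum_repr (y : H)
    refine h.symm.trans (Finset.sum_congr rfl fun i _ => ?_)
    rw [hb, Algebra.smul_def]
  -- the prime above
  obtain ⟨⟨Q, hQp, hQ⟩⟩ := v.asIdeal.nonempty_primesOver (S := 𝓞 H)
  have hQ0 : Q ≠ ⊥ := Ideal.ne_bot_of_liesOver_of_ne_bot v.ne_bot Q
  let w : HeightOneSpectrum (𝓞 H) := ⟨Q, hQp, hQ0⟩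
  haveI : w.asIdeal.LiesOver v.asIdeal := hQ
  set e := v.asIdeal.ramificationIdx' w.asIdeal with he
  have he0 : e ≠ 0 := Ideal.IsDedekindDomain.ramificationIdx'_ne_zero_of_liesOver w.asIdeal v.ne_bot
  have hW : ∀ z : M, w.valuation H (algebraMap M H z) = v.valuation M z ^ e :=
    fun z => (HeightOneSpectrum.valuation_liesOver H v w z).symm
  set W := w.valuation H with hWdef
  set V := v.valuation M with hVdef
  have hWs : W s ^ p = V a ^ e := by rw [← map_pow, hs, hW]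
  have hWε : ∀ n : ℕ, W (algebraMap M H (ε ^ n)) = 1 := by
    intro n
    have h1 : V ε = 1 := by
      have h2 : V ε ^ p = 1 := by rw [← map_pow, hε.pow_eq_one, map_one]
      exact (pow_eq_one_iff_of_nonneg zero_le hp0.ne').1 h2
    rw [hW, map_pow, h1, one_pow, one_pow]
  have hVa : V a ≠ 0 := (Valuation.ne_zero_iff _).2 ha
  let φ : Fin p → WithZero (Multiplicative ℤ) := fun i => V (α i) ^ p * V a ^ (i : ℕ)
  have hWφ : ∀ i, W (algebraMap M H (α i) * s ^ (i : ℕ)) ^ p = φ i ^ e := by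
    intro i
    have e2 : (W s ^ (i : ℕ)) ^ p = (V a ^ (i : ℕ)) ^ e := by
      rw [← pow_mul, mul_comm (i : ℕ) p, pow_mul (W s), hWs, ← pow_mul, ← pow_mul,
        mul_comm e (i : ℕ)]
    have e3 : (V (α i) ^ e) ^ p = (V (α i) ^ p) ^ e := by
      rw [← pow_mul, ← pow_mul, mul_comm e p]
    rw [map_mul, map_pow, mul_pow, hW, e2, e3, ← mul_pow]
  have hφ0 : ∀ i, α i ≠ 0 → φ i ≠ 0 := fun i hi =>
    mul_ne_zero (pow_ne_zero _ ((Valuation.ne_zero_iff _).2 hi)) (pow_ne_zero _ hVa)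
  have hφinj : ∀ i j, α i ≠ 0 → α j ≠ 0 → φ i = φ j → i = j := by
    intro i j hi hj hij
    have hVi : V (α i) ≠ 0 := (Valuation.ne_zero_iff _).2 hi
    have hVj : V (α j) ≠ 0 := (Valuation.ne_zero_iff _).2 hj
    have h1 := congrArg WithZero.log hij
    simp only [φ] at h1
    rw [WithZero.log_mul (pow_ne_zero _ hVi) (pow_ne_zero _ hVa),
      WithZero.log_mul (pow_ne_zero _ hVj) (pow_ne_zero _ hVa), WithZero.log_pow,
      WithZero.log_pow, WithZero.log_pow, WithZero.log_pow] at h1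
    simp only [nsmul_eq_mul] at h1
    have h2 : ((p : ℤ)) ∣ ((i : ℕ) - (j : ℕ) : ℤ) * WithZero.log (V a) :=
      ⟨WithZero.log (V (α j)) - WithZero.log (V (α i)), by linarith⟩
    have h3 : ¬ ((p : ℤ)) ∣ WithZero.log (V a) := by
      intro h4
      apply hv
      unfold ordv
      rwa [dvd_neg]
    have h5 : (p : ℤ) ∣ ((i : ℕ) - (j : ℕ) : ℤ) :=
      ((Nat.prime_iff_prime_int.1 hp.out).dvd_or_dvd h2).resolve_right h3
    have h6 : ((i : ℕ) - (j : ℕ) : ℤ) = 0 := by
      refine Int.eq_zero_of_abs_lt_dvd h5 ?_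
      have := i.2
      have := j.2
      rw [abs_lt]
      omega
    exact Fin.ext (by omega)
  -- the maximal term
  obtain ⟨i₁, hi₁⟩ : ∃ i, α i ≠ 0 := by
    by_contra hcon
    push Not at hcon
    have : (y : H) = 0 := by
      rw [hy]
      exact Finset.sum_eq_zero fun i _ => by rw [hcon i, map_zero, zero_mul]
    exact y.ne_zero this
  obtain ⟨i₀, -, hi₀⟩ := Finset.exists_max_image Finset.univ φ ⟨i₁, Finset.mem_univ _⟩
  have hα0 : α i₀ ≠ 0 := by
    intro h
    have h1 := hi₀ i₁ (Finset.mem_univ _)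
    have h2 : φ i₀ = 0 := by simp only [φ, h, map_zero, zero_pow hp0.ne', zero_mul]
    rw [h2] at h1
    exact hφ0 i₁ hi₁ (le_zero_iff.1 h1)
  set u : H := algebraMap M H (α i₀) * s ^ (i₀ : ℕ) with hu
  have hu0 : u ≠ 0 := mul_ne_zero ((map_ne_zero _).2 hα0) (pow_ne_zero _ hs0)
  have hWu : W u ≠ 0 := (Valuation.ne_zero_iff _).2 hu0
  have hlt : ∀ i, i ≠ i₀ → W (algebraMap M H (α i) * s ^ (i : ℕ)) < W u := by
    intro i hi
    by_cases h0 : α i = 0
    · rw [h0, map_zero, zero_mul, map_zero]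
      exact zero_lt_iff.2 hWu
    · have h1 : φ i < φ i₀ := lt_of_le_of_ne (hi₀ i (Finset.mem_univ _)) fun h =>
        hi (hφinj i i₀ h0 hα0 h)
      have h2 : W (algebraMap M H (α i) * s ^ (i : ℕ)) ^ p < W u ^ p := by
        rw [hWφ, hu, hWφ]
        exact pow_lt_pow_left₀ h1 zero_le he0
      exact lt_of_pow_lt_pow_left₀ p zero_le h2
  -- the conjugates
  have hconj : ∀ (j : ℕ) (i : Fin p), (γ ^ j) (algebraMap M H (α i) * s ^ (i : ℕ)) =
      algebraMap M H (ε ^ (j * i)) * (algebraMap M H (α i) * s ^ (i : ℕ)) := by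
    intro j i
    rw [map_mul, AlgEquiv.commutes, hγj]
    ring
  have hWconj : ∀ (j : ℕ) (i : Fin p), W ((γ ^ j) (algebraMap M H (α i) * s ^ (i : ℕ))) =
      W (algebraMap M H (α i) * s ^ (i : ℕ)) := by
    intro j i
    rw [hconj, map_mul, hWε, one_mul]
  have hfac : ∀ j : ℕ, W ((γ ^ j) ((y : H) / u) - 1) < 1 := by
    intro j
    have h1 : (y : H) = u + ∑ i ∈ Finset.univ.erase i₀, algebraMap M H (α i) * s ^ (i : ℕ) := by
      rw [hy, ← Finset.add_sum_erase _ _ (Finset.mem_univ i₀)]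
    have hγu : (γ ^ j) u ≠ 0 := by
      rw [Ne, map_eq_zero_iff _ (γ ^ j).injective]
      exact hu0
    have hWγu : W ((γ ^ j) u) = W u := hWconj j i₀
    have h2 : (γ ^ j) ((y : H) / u) - 1 =
        (∑ i ∈ Finset.univ.erase i₀, (γ ^ j) (algebraMap M H (α i) * s ^ (i : ℕ))) /
          (γ ^ j) u := by
      rw [map_div₀, h1, map_add, map_sum, add_div, div_self hγu]
      ring
    rw [h2, map_div₀, hWγu, div_lt_one₀ (zero_lt_iff.2 hWu)]
    refine Valuation.map_sum_lt W hWu fun i hi => ?_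
    rw [hWconj]
    exact hlt i (Finset.ne_of_mem_erase hi)
  -- the norm of `u`
  have hNu : ∏ j ∈ Finset.range p, (γ ^ j) u =
      algebraMap M H (α i₀ ^ p * ((-1) ^ (p - 1) * a) ^ (i₀ : ℕ)) := by
    have h1 : ∀ j ∈ Finset.range p, (γ ^ j) u = algebraMap M H (ε ^ (j * (i₀ : ℕ))) * u :=
      fun j _ => hconj j i₀
    rw [Finset.prod_congr rfl h1, Finset.prod_mul_distrib, Finset.prod_const, Finset.card_range,
      hu, mul_pow, ← pow_mul, mul_comm (i₀ : ℕ) p, pow_mul, hs, ← map_prod]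
    have h2 : ∏ j ∈ Finset.range p, ε ^ (j * (i₀ : ℕ)) = ((-1) ^ (p - 1)) ^ (i₀ : ℕ) := by
      rw [← prod_pow_prim p hε, ← Finset.prod_pow]
      exact Finset.prod_congr rfl fun j _ => pow_mul _ _ _
    rw [h2, ← map_pow, ← map_pow, ← map_mul, ← map_mul, mul_pow]
    congr 1
    ring
  set a' : M := (-1) ^ (p - 1) * a with ha'
  have ha'0 : a' ≠ 0 := mul_ne_zero (pow_ne_zero _ (neg_ne_zero.2 one_ne_zero)) ha
  set D : M := α i₀ ^ p * a' ^ (i₀ : ℕ) with hD
  have hD0 : D ≠ 0 := mul_ne_zero (pow_ne_zero _ hα0) (pow_ne_zero _ ha'0)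
  have hkey : V (x / D - 1) < 1 := by
    have h1 : algebraMap M H (x / D - 1) = ∏ j ∈ Finset.range p, (γ ^ j) ((y : H) / u) - 1 := by
      rw [map_sub, map_div₀, map_one, hx, ← hNu, ← Finset.prod_div_distrib]
      congr 1
      exact Finset.prod_congr rfl fun j _ => (map_div₀ _ _ _).symm
    have h2 : W (algebraMap M H (x / D - 1)) < 1 := by
      rw [h1]
      exact prod_sub_one W _ p hfac
    rw [hW] at h2
    by_contra hcon
    exact absurd h2 (not_lt.2 (one_le_pow₀ (not_lt.1 hcon)))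
  refine ⟨(p - 1) * (i₀ : ℕ), (α i₀ * a' ^ (i₀ : ℕ))⁻¹, ?_⟩
  have h9 : x * a' ^ ((p - 1) * (i₀ : ℕ)) * ((α i₀ * a' ^ (i₀ : ℕ))⁻¹) ^ p = x / D := by
    have h10 : p * (i₀ : ℕ) = (p - 1) * (i₀ : ℕ) + i₀ := by
      have h20 := Nat.sub_one_mul p (i₀ : ℕ)
      have h21 : (i₀ : ℕ) ≤ p * (i₀ : ℕ) := Nat.le_mul_of_pos_left _ hp0
      omega
    have h11 : a' ^ ((p - 1) * (i₀ : ℕ)) ≠ 0 := pow_ne_zero _ ha'0
    have h12 : a' ^ (i₀ : ℕ) ≠ 0 := pow_ne_zero _ ha'0
    have h13 : α i₀ ^ p ≠ 0 := pow_ne_zero _ hα0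
    have h14 : (a' ^ (i₀ : ℕ)) ^ p = a' ^ ((p - 1) * (i₀ : ℕ)) * a' ^ (i₀ : ℕ) := by
      rw [← pow_mul, mul_comm (i₀ : ℕ) p, h10, pow_add]
    rw [inv_pow, mul_pow (α i₀), h14, hD]
    generalize a' ^ ((p - 1) * (i₀ : ℕ)) = A at *
    generalize a' ^ (i₀ : ℕ) = B at *
    field_simp
  rw [h9]
  exact hkey

end Pool.Agent.Helper20.RP
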